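import Pool.Agent.Y343.LD.Stm
import Pool.Agent.Y343.LC.Jmap

/-!
# Project LD, job IFF (helper905): `H¹_c(K / H; ℓ²H) = 0` in terms of square-summable cochains
-/

set_option autoImplicit false

namespace Pool.Agent.Y905.LD

open Pool.Agent.Y343.LC Pool.Agent.Y343.LD
open Pool.Agent.Y343.LB (l2 mem_l2 l2_C0)

noncomputable section

/-- from the orbits to the whole set -/
theorem sq_of_orbits {X I H : Type} (f : X → ℂ) (F : Finset I) (a : I → H → X)
    (hs : ∀ x, f x ≠ 0 → ∃ i ∈ F, ∃ h, a i h = x)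
    (hsum : ∀ i ∈ F, Summable fun h => ‖f (a i h)‖ ^ 2) : Sq f := by
  classical
  let g : {i // i ∈ F} × H → ℝ := fun p => ‖f (a p.1 p.2)‖ ^ 2
  have hg : Summable g := by
    rw [summable_prod_of_nonneg (fun p => by positivity)]
    exact ⟨fun i => hsum i.1 i.2, (hasSum_fintype _).summable⟩
  have hs' : ∀ x : {x // f x ≠ 0}, ∃ p : {i // i ∈ F} × H, a p.1 p.2 = x.1 := by
    intro x
    obtain ⟨i, hi, h, hh⟩ := hs x.1 x.2
    exact ⟨(⟨i, hi⟩, h), hh⟩
  choose s hs2 using hs'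
  have hinj : Function.Injective s := by
    intro x y hxy
    apply Subtype.ext
    rw [← hs2 x, ← hs2 y, hxy]
  have h1 := hg.comp_injective hinj
  have h2 : (g ∘ s) = fun x : {x // f x ≠ 0} => ‖f x.1‖ ^ 2 := by
    funext x
    show ‖f (a (s x).1 (s x).2)‖ ^ 2 = _
    rw [hs2]
  rw [h2] at h1
  have h4 : Summable ((fun x => ‖f x‖ ^ 2) ∘ (Subtype.val : {x // f x ≠ 0} → X)) := h1
  have h5 := (Subtype.val_injective (p := fun x => f x ≠ 0)).summable_iff
    (f := fun x => ‖f x‖ ^ 2) (by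
      intro x hx
      have h6 : f x = 0 := by
        by_contra h
        exact hx ⟨⟨x, h⟩, rfl⟩
      simp [h6])
  exact h5.1 h4

/-- from the whole set to the orbits -/
theorem orbit_of_sq {X H : Type} [Group H] (f : X → ℂ) (hf : Sq f) (b : H → X) (St : Set H)
    (hSt : St.Finite) (hb : ∀ h r, b h = b r → h * r⁻¹ ∈ St) :
    Summable fun h => ‖f (b h)‖ ^ 2 := by
  classical
  have := hSt.to_subtype
  have hr : ∀ y : X, ∃ r : H, ∀ h, b h = y → b r = y := by
    intro y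
    by_cases hy : ∃ r, b r = y
    · obtain ⟨r, hr⟩ := hy
      exact ⟨r, fun _ _ => hr⟩
    · exact ⟨1, fun h hh => absurd ⟨h, hh⟩ hy⟩
  choose r hr using hr
  let s : H → X × St := fun h => (b h, ⟨h * (r (b h))⁻¹, hb h _ (hr (b h) h rfl).symm⟩)
  have hinj : Function.Injective s := by
    intro h h' hh
    have h1 : b h = b h' := congrArg Prod.fst hh
    have h2 : h * (r (b h))⁻¹ = h' * (r (b h'))⁻¹ := congrArg (fun p => p.2.1) hh
    rw [h1] at h2
    exact mul_right_cancel h2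
  have h1 : Summable fun p : X × St => ‖f p.1‖ ^ 2 * (1 : ℝ) :=
    Summable.mul_of_nonneg (f := fun x => ‖f x‖ ^ 2) (g := fun _ : St => (1 : ℝ)) hf
      (Summable.of_finite) (fun x => by positivity) (fun _ => zero_le_one)
  have h2 := h1.comp_injective hinj
  refine h2.congr fun h => ?_
  show ‖f (b h)‖ ^ 2 * 1 = _
  rw [mul_one]

variable {V : Type}

theorem orbit_V {K : Cx V} {H : Type} [Group H] [MulAction H V] (hA : ProperAction K H)
    (f : V → ℂ) (hf : Sq f) (v : V) : Summable fun x : H => ‖f (x⁻¹ • v)‖ ^ 2 := by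
  refine orbit_of_sq f hf (fun x : H => x⁻¹ • v) {g : H | g • v = v} (hA.stab v) ?_
  intro h r hhr
  have h1 : h⁻¹ • v = r⁻¹ • v := hhr
  show (h * r⁻¹) • v = v
  rw [mul_smul, ← h1, smul_inv_smul]

theorem orbit_VV {K : Cx V} {H : Type} [Group H] [MulAction H V] (hA : ProperAction K H)
    (c : V → V → ℂ) (hc : Sq fun p : V × V => c p.1 p.2) (u v : V) :
    Summable fun x : H => ‖c (x⁻¹ • u) (x⁻¹ • v)‖ ^ 2 := by
  refine orbit_of_sq (fun p : V × V => c p.1 p.2) hc (fun x : H => (x⁻¹ • u, x⁻¹ • v))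
    {g : H | g • v = v} (hA.stab v) ?_
  intro h r hhr
  have h1 : h⁻¹ • v = r⁻¹ • v := congrArg Prod.snd hhr
  show (h * r⁻¹) • v = v
  rw [mul_smul, ← h1, smul_inv_smul]

theorem inv_summable {H : Type} [Group H] (f : L2 H) : Summable fun h : H => ‖ev f h⁻¹‖ ^ 2 :=
  (Equiv.inv H).summable_iff (f := fun x => ‖ev f x‖ ^ 2) |>.2 (ev_summable f)

/-- the forward direction -/
theorem fwd (K : Cx V) (H : Type) [Group H] [MulAction H V] [Infinite H]
    (hA : ProperAction K H) (hP : L2Prim K H) : H1cTriv K H := by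
  classical
  refine subsingleton_of_forall_eq 0 (fun x => ?_)
  obtain ⟨c, rfl⟩ := cls_surj K H x
  rw [cls_eq_zero]
  obtain ⟨F, hF⟩ := (val_mem c).2.2
  have hval0 : ∀ u v, sc c u v ≠ 0 → val c u v ≠ 0 := by
    intro u v h h0
    apply h
    show ev (val c u v) 1 = 0
    rw [h0]
    rfl
  have hFs : ∀ u v, sc c u v ≠ 0 → ∃ h : H, ∃ x ∈ F, u = h • x :=
    fun u v h => hF u v (hval0 u v h)
  -- square-summable
  let F2 : Finset (V × V) := F.biUnion fun u => (hA.locfin u).toFinset.image fun v => (u, v)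
  have hsq : Sq fun p : V × V => sc c p.1 p.2 := by
    refine sq_of_orbits (H := H) (fun p : V × V => sc c p.1 p.2) F2
      (fun p h => (h • p.1, h • p.2)) ?_ ?_
    · rintro ⟨u, v⟩ hne
      have hadj : K.graph.Adj u v := by
        by_contra hadj
        exact hne ((sc_closed c).1 u v hadj)
      obtain ⟨h, x, hx, hux⟩ := hFs u v hne
      refine ⟨(x, h⁻¹ • v), ?_, h, ?_⟩
      · simp only [F2, Finset.mem_biUnion, Finset.mem_image, Set.Finite.mem_toFinset]
        refine ⟨x, hx, h⁻¹ • v, ?_, rfl⟩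
        have h2 := hA.adj h⁻¹ u v hadj
        rw [hux, inv_smul_smul] at h2
        exact h2
      · show (h • x, h • h⁻¹ • v) = (u, v)
        rw [← hux, smul_inv_smul]
    · rintro ⟨u, v⟩ _
      have h1 : ∀ h : H, sc c (h • u) (h • v) = ev (val c u v) h⁻¹ := by
        intro h
        show ev (val c (h • u) (h • v)) 1 = _
        rw [(val_mem c).2.1 h u v, lt_apply, mul_one]
      simp only [h1]
      exact inv_summable _
  obtain ⟨f, hf, hfD⟩ := hP (sc c) (sc_closed c) hsq ⟨F, hFs⟩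
  have hFφ : ∀ u v, K.graph.Adj u v → f u ≠ f v → ∃ h : H, ∃ x ∈ F, u = h • x := by
    intro u v h hne
    refine hFs u v (fun h0 => hne ?_)
    have h2 := hfD u v h
    rw [h0] at h2
    exact (sub_eq_zero.1 h2.symm).symm
  have hlev : ∀ b : ℝ, 0 < b → {v | b ≤ ‖f v‖}.Finite := by
    intro b hb
    have h1 : f ∈ l2 V := mem_l2.2 hf
    exact l2_C0 h1 b hb
  obtain ⟨F', hF'⟩ := supp_finite K H hA f F hFφ hlev
  have hk : ∀ v, Summable fun x : H => ‖f (x⁻¹ • v)‖ ^ 2 := orbit_V hA f hf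
  refine ⟨fun v => mk (fun x : H => f (x⁻¹ • v)) (hk v), ⟨fun h v => ?_, F', fun v hv0 => ?_⟩,
    fun u v h => ?_⟩
  · refine ev_ext fun x => ?_
    show f (x⁻¹ • h • v) = f ((h⁻¹ * x)⁻¹ • v)
    rw [mul_inv_rev, inv_inv, mul_smul]
  · by_contra hne
    apply hv0
    refine ev_ext fun x => ?_
    show f (x⁻¹ • v) = 0
    by_contra h0
    obtain ⟨h, y, hy, hh⟩ := hF' _ h0
    refine hne ⟨x * h, y, hy, ?_⟩
    rw [mul_smul, ← hh, smul_inv_smul]
  · refine ev_ext fun x => ?_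
    show ev (val c u v) x = f (x⁻¹ • v) - f (x⁻¹ • u)
    rw [val_sc c u v x]
    exact hfD _ _ (hA.adj x⁻¹ u v h)

/-- the backward direction -/
theorem bwd (K : Cx V) (H : Type) [Group H] [MulAction H V]
    (hA : ProperAction K H) (hT : H1cTriv K H) : L2Prim K H := by
  classical
  intro c hc hsq ⟨F, hF⟩
  let C : V → V → L2 H := fun u v =>
    mk (fun x : H => c (x⁻¹ • u) (x⁻¹ • v)) (orbit_VV hA c hsq u v)
  have hC : IsZ1 K H C := by
    refine ⟨⟨fun u v h => ?_, fun u v => ?_, fun u v w h => ?_⟩, fun g u v => ?_, F,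
      fun u v h => ?_⟩
    · refine ev_ext fun x => ?_
      show c (x⁻¹ • u) (x⁻¹ • v) = 0
      refine hc.1 _ _ fun hadj => h ?_
      have := hA.adj x _ _ hadj
      rwa [smul_inv_smul, smul_inv_smul] at this
    · refine ev_ext fun x => ?_
      exact hc.2.1 _ _
    · refine ev_ext fun x => ?_
      exact hc.2.2 _ _ _ (hA.tri x⁻¹ u v w h)
    · refine ev_ext fun x => ?_
      show c (x⁻¹ • g • u) (x⁻¹ • g • v) = c ((g⁻¹ * x)⁻¹ • u) ((g⁻¹ * x)⁻¹ • v)
      rw [mul_inv_rev, inv_inv, mul_smul, mul_smul]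
    · obtain ⟨x, hx⟩ : ∃ x : H, c (x⁻¹ • u) (x⁻¹ • v) ≠ 0 := by
        by_contra hcon
        push Not at hcon
        exact h (ev_ext fun x => hcon x)
      obtain ⟨g, y, hy, hgy⟩ := hF _ _ hx
      refine ⟨x * g, y, hy, ?_⟩
      rw [mul_smul, ← hgy, smul_inv_smul]
  have h0 : cls K H (mkZ K H C hC) = 0 := @Subsingleton.elim _ hT _ _
  rw [cls_eq_zero] at h0
  obtain ⟨f, ⟨hf1, F', hf2⟩, hfD⟩ := h0
  refine ⟨fun v => ev (f v) 1, ?_, ?_⟩
  · refine sq_of_orbits (H := H) _ F' (fun x h => h • x) ?_ ?_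
    · intro v hv
      have h1 : f v ≠ 0 := by
        intro h0
        apply hv
        show ev (f v) 1 = 0
        rw [h0]
        rfl
      obtain ⟨h, x, hx, hh⟩ := hf2 v h1
      exact ⟨x, hx, h, hh.symm⟩
    · intro x _
      have h1 : ∀ h : H, ev (f (h • x)) 1 = ev (f x) h⁻¹ := by
        intro h
        rw [hf1, lt_apply, mul_one]
      simp only [h1]
      exact inv_summable _
  · intro u v h
    have h1 := congrArg (fun g : L2 H => ev g 1) (hfD u v h)
    have h2 : c ((1 : H)⁻¹ • u) ((1 : H)⁻¹ • v) = ev (f v) 1 - ev (f u) 1 := h1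
    rwa [inv_one, one_smul, one_smul] at h2

theorem t_IFF : StmIff := fun V K H _ _ _ hA => ⟨fwd K H hA, bwd K H hA⟩

end

end Pool.Agent.Y905.LD

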